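import Mathlib

namespace Pool.Agent.Results.MP_db617b_an.Disconnected

/-- the breakpoints `s₀ = 0, s₁, …, s_k, s_{k+1} = 1` -/
def ext {k : ℕ} (s : Fin k → ℝ) : Fin (k + 2) → ℝ := Fin.cons 0 (Fin.snoc s 1)

/-- the polytope `P` -/
def P (k : ℕ) : Set ((Fin k → ℝ) × (Fin (k + 1) → ℝ)) :=
  {p | Monotone (ext p.1) ∧ (∀ i, 0 ≤ p.2 i) ∧ ∑ i, p.2 i = 1}

/-- the `a`-th coordinate of the moment map -/
noncomputable def mu {k : ℕ} (a : ℕ) (p : (Fin k → ℝ) × (Fin (k + 1) → ℝ)) : ℝ :=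
  ∑ i : Fin (k + 1), p.2 i *
    ((∑ j ∈ Finset.range (a + 1), ext p.1 i.succ ^ (a - j) * ext p.1 i.castSucc ^ j) / (a + 1))

/-- the fibre of `μ_A` over `m` -/
def fibre (k : ℕ) (A : Finset ℕ) (m : A → ℝ) : Set ((Fin k → ℝ) × (Fin (k + 1) → ℝ)) :=
  {p | p ∈ P k ∧ ∀ a : A, mu a p = m a}

lemma ext2 (s : Fin 2 → ℝ) : ext s = ![0, s 0, s 1, 1] := by
  funext i; fin_cases i <;> rfl

lemma mu1 (p : (Fin 2 → ℝ) × (Fin 3 → ℝ)) : mu 1 p =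
    p.2 0 * (p.1 0 / 2) + p.2 1 * ((p.1 1 + p.1 0) / 2) + p.2 2 * ((1 + p.1 1) / 2) := by
  simp [mu, ext2, Fin.sum_univ_three, Finset.sum_range_succ]; ring
lemma mu2 (p : (Fin 2 → ℝ) × (Fin 3 → ℝ)) : mu 2 p =
    p.2 0 * (p.1 0 ^ 2 / 3) + p.2 1 * ((p.1 1 ^ 2 + p.1 1 * p.1 0 + p.1 0 ^ 2) / 3) +
      p.2 2 * ((1 + p.1 1 + p.1 1 ^ 2) / 3) := by
  simp [mu, ext2, Fin.sum_univ_three, Finset.sum_range_succ]; ring
lemma mu3 (p : (Fin 2 → ℝ) × (Fin 3 → ℝ)) : mu 3 p =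
    p.2 0 * (p.1 0 ^ 3 / 4) +
      p.2 1 * ((p.1 1 ^ 3 + p.1 1 ^ 2 * p.1 0 + p.1 1 * p.1 0 ^ 2 + p.1 0 ^ 3) / 4) +
      p.2 2 * ((1 + p.1 1 + p.1 1 ^ 2 + p.1 1 ^ 3) / 4) := by
  simp [mu, ext2, Fin.sum_univ_three, Finset.sum_range_succ]; ring

noncomputable def m0 (a : ℕ) : ℝ :=
  if a = 1 then 71 / 128 else if a = 2 then 149 / 384 else 4859 / 16384

lemma mem_iff (p : (Fin 2 → ℝ) × (Fin 3 → ℝ)) : p ∈ fibre 2 {1, 2, 3} (fun a => m0 a) ↔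
    p ∈ P 2 ∧ mu 1 p = 71 / 128 ∧ mu 2 p = 149 / 384 ∧ mu 3 p = 4859 / 16384 := by
  constructor
  · rintro ⟨h, h'⟩
    exact ⟨h, by simpa [m0] using h' ⟨1, by simp⟩, by simpa [m0] using h' ⟨2, by simp⟩,
      by simpa [m0] using h' ⟨3, by simp⟩⟩
  · rintro ⟨h, h1, h2, h3⟩
    refine ⟨h, ?_⟩
    rintro ⟨a, ha⟩
    simp only [Finset.mem_insert, Finset.mem_singleton] at ha
    rcases ha with rfl | rfl | rfl <;> simpa [m0]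

theorem result : ¬ ∀ (k : ℕ) (A : Finset ℕ) (m : A → ℝ), 1 ≤ k →
    IsPreconnected (fibre k A m) := by
  intro H
  have h := H 2 {1, 2, 3} (fun a => m0 a) (by norm_num)
  have h1 : ((![1 / 8, 3 / 8], ![1 / 8, 1 / 8, 3 / 4]) : (Fin 2 → ℝ) × (Fin 3 → ℝ)) ∈
      fibre 2 {1, 2, 3} (fun a => m0 a) := by
    rw [mem_iff, mu1, mu2, mu3]
    refine ⟨⟨?_, ?_, ?_⟩, ?_, ?_, ?_⟩
    · rw [ext2, Fin.monotone_iff_le_succ]; intro i; fin_cases i <;> simp <;> norm_num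
    · intro i; fin_cases i <;> simp <;> norm_num
    all_goals simp [Fin.sum_univ_three]; norm_num
  have h2 : ((![5 / 8, 7 / 8], ![1 / 2, 3 / 8, 1 / 8]) : (Fin 2 → ℝ) × (Fin 3 → ℝ)) ∈
      fibre 2 {1, 2, 3} (fun a => m0 a) := by
    rw [mem_iff, mu1, mu2, mu3]
    refine ⟨⟨?_, ?_, ?_⟩, ?_, ?_, ?_⟩
    · rw [ext2, Fin.monotone_iff_le_succ]; intro i; fin_cases i <;> simp <;> norm_num
    · intro i; fin_cases i <;> simp <;> norm_num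
    all_goals simp [Fin.sum_univ_three]; norm_num
  have hc : ContinuousOn (fun p : (Fin 2 → ℝ) × (Fin 3 → ℝ) => p.1 0)
      (fibre 2 {1, 2, 3} (fun a => m0 a)) := by fun_prop
  obtain ⟨p, hp, hp0⟩ := h.intermediate_value h1 h2 hc
    (show (1 / 2 : ℝ) ∈ _ by simp; norm_num)
  rw [mem_iff, mu1, mu2, mu3] at hp
  obtain ⟨⟨-, -, e0⟩, e1, e2, e3⟩ := hp
  replace e0 : p.2 0 + p.2 1 + p.2 2 = 1 := by rw [← e0]; exact (Fin.sum_univ_three _).symm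
  simp only at hp0
  rw [hp0] at e1 e2 e3
  have : (0 : ℝ) = 1 := by
    linear_combination (exp := 1) (-4096 / 21 : ℝ) * (4 * e3 - 3 * (1 + (1 / 2 + p.1 1)) * e2 +
      2 * ((1 / 2 + p.1 1) + p.1 1 / 2) * e1 - p.1 1 / 2 * e0)
  exact zero_ne_one this

end Pool.Agent.Results.MP_db617b_an.Disconnected
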